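import Mathlib

set_option autoImplicit false

namespace Pool.Agent.Results.MP_336050_an.NotMinimal

open Module

/-- A pairwise commuting family of endomorphisms of a nonzero finite dimensional complex vector
space has a common eigenvector. -/
theorem common_eigenvector {ι V : Type*} [AddCommGroup V] [Module ℂ V] [FiniteDimensional ℂ V]
    [Nontrivial V] (f : ι → V →ₗ[ℂ] V) (hf : ∀ i j x, f i (f j x) = f j (f i x)) :
    ∃ v : V, v ≠ 0 ∧ ∀ i, ∃ μ : ℂ, f i v = μ • v := by
  obtain ⟨W, ⟨hW0, hWinv⟩, hWmin⟩ := IsArtinian.set_has_minimal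
    (R := ℂ) (M := V) {W : Submodule ℂ V | W ≠ ⊥ ∧ ∀ i, ∀ x ∈ W, f i x ∈ W}
    ⟨⊤, by simp, by simp⟩
  have key : ∀ i, ∃ μ : ℂ, ∀ x ∈ W, f i x = μ • x := by
    intro i
    have : Nontrivial W := Submodule.nontrivial_iff_ne_bot.mpr hW0
    obtain ⟨μ, hμ⟩ := Module.End.exists_eigenvalue ((f i).restrict (hWinv i))
    obtain ⟨w, hw⟩ := hμ.exists_hasEigenvector
    refine ⟨μ, ?_⟩
    let U : Submodule ℂ V := W ⊓ Module.End.eigenspace (f i) μ
    have hU : U ∈ {W : Submodule ℂ V | W ≠ ⊥ ∧ ∀ i, ∀ x ∈ W, f i x ∈ W} := by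
      refine ⟨?_, ?_⟩
      · intro h
        have h1 : (w : V) ∈ U := by
          refine ⟨w.2, ?_⟩
          rw [SetLike.mem_coe, Module.End.mem_eigenspace_iff]
          have := hw.apply_eq_smul
          have h2 := congrArg Subtype.val this
          simpa using h2
        rw [h] at h1
        apply hw.2
        have h3 : (w : V) = 0 := by simpa using h1
        exact Subtype.ext h3
      · intro j x hx
        refine ⟨hWinv j x hx.1, ?_⟩
        have hx2 := hx.2
        rw [SetLike.mem_coe, Module.End.mem_eigenspace_iff] at hx2 ⊢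
        rw [hf i j x, hx2, map_smul]
    have hle : U ≤ W := inf_le_left
    have hEq : U = W := by
      by_contra hne
      exact hWmin U hU (lt_of_le_of_ne hle hne)
    intro x hx
    rw [← hEq] at hx
    exact Module.End.mem_eigenspace_iff.mp hx.2
  obtain ⟨v, hv, hv0⟩ := W.ne_bot_iff.mp hW0
  exact ⟨v, hv0, fun i => by obtain ⟨μ, hμ⟩ := key i; exact ⟨μ, hμ v hv⟩⟩

/-- For every `n ≥ 3` and every `n`-tuple of pairwise commuting real `n × n` matrices there is a
non-zero vector whose orbit under the tuple is not dense. -/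
theorem result (n : ℕ) (hn : 3 ≤ n) (A : Fin n → Matrix (Fin n) (Fin n) ℝ)
    (hA : ∀ i j, A i * A j = A j * A i) :
    ∃ x : Fin n → ℝ, x ≠ 0 ∧
      ¬ Dense {y : Fin n → ℝ | ∃ k : Fin n → ℕ,
        y = ((List.ofFn fun i => A i ^ k i).prod).mulVec x} := by
  classical
  have : Nonempty (Fin n) := ⟨⟨0, by omega⟩⟩
  -- complexify
  let B : Fin n → Matrix (Fin n) (Fin n) ℂ := fun i => (A i).map (algebraMap ℝ ℂ)
  have hB : ∀ i j, B i * B j = B j * B i := by
    intro i j
    simp only [B]
    rw [← Matrix.map_mul, ← Matrix.map_mul, hA i j]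
  obtain ⟨v, hv0, hv⟩ := common_eigenvector (fun i => Matrix.toLin' (B i)) (by
    intro i j x
    simp only [Matrix.toLin'_apply, Matrix.mulVec_mulVec, hB i j])
  -- real and imaginary part
  let p : Fin n → ℝ := fun j => (v j).re
  let q : Fin n → ℝ := fun j => (v j).im
  let W : Submodule ℝ (Fin n → ℝ) := Submodule.span ℝ {p, q}
  have hre : ∀ i, (A i).mulVec p ∈ W ∧ (A i).mulVec q ∈ W := by
    intro i
    obtain ⟨μ, hμ⟩ := hv i
    simp only [Matrix.toLin'_apply] at hμ
    have h1 : (A i).mulVec p = μ.re • p - μ.im • q := by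
      funext j
      have := congrArg Complex.re (congrFun hμ j)
      simp only [Matrix.mulVec, dotProduct, Pi.smul_apply, smul_eq_mul, Complex.re_sum,
        Complex.mul_re, Pi.sub_apply, B, Matrix.map_apply] at this ⊢
      rw [← this]
      apply Finset.sum_congr rfl
      intro l _
      simp [p]
    have h2 : (A i).mulVec q = μ.re • q + μ.im • p := by
      funext j
      have := congrArg Complex.im (congrFun hμ j)
      simp only [Matrix.mulVec, dotProduct, Pi.smul_apply, smul_eq_mul, Complex.im_sum,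
        Complex.mul_im, Pi.add_apply, B, Matrix.map_apply] at this ⊢
      rw [← this]
      apply Finset.sum_congr rfl
      intro l _
      simp [q]
    have hp : p ∈ W := Submodule.subset_span (by simp)
    have hq : q ∈ W := Submodule.subset_span (by simp)
    constructor
    · rw [h1]; exact W.sub_mem (W.smul_mem _ hp) (W.smul_mem _ hq)
    · rw [h2]; exact W.add_mem (W.smul_mem _ hq) (W.smul_mem _ hp)
  have hinv : ∀ i, ∀ x ∈ W, (A i).mulVec x ∈ W := by
    intro i x hx
    induction hx using Submodule.span_induction with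
    | mem x h =>
      rcases h with h | h
      · rw [h]; exact (hre i).1
      · rw [Set.mem_singleton_iff.mp h]; exact (hre i).2
    | zero => simp
    | add x y _ _ hx hy => rw [Matrix.mulVec_add]; exact W.add_mem hx hy
    | smul a x _ hx => rw [Matrix.mulVec_smul]; exact W.smul_mem _ hx
  have hpow : ∀ i (m : ℕ), ∀ x ∈ W, (A i ^ m).mulVec x ∈ W := by
    intro i m
    induction m with
    | zero => intro x hx; simpa using hx
    | succ m ih =>
      intro x hx
      rw [pow_succ, ← Matrix.mulVec_mulVec]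
      exact ih _ (hinv i x hx)
  have hprod : ∀ l : List (Matrix (Fin n) (Fin n) ℝ), (∀ M ∈ l, ∀ x ∈ W, M.mulVec x ∈ W) →
      ∀ x ∈ W, (l.prod).mulVec x ∈ W := by
    intro l
    induction l with
    | nil => intro _ x hx; simpa using hx
    | cons M l ih =>
      intro h x hx
      rw [List.prod_cons, ← Matrix.mulVec_mulVec]
      exact h M (by simp) _ (ih (fun N hN => h N (by simp [hN])) x hx)
  -- `W` is a proper subspace
  have hdim : Module.finrank ℝ W ≤ 2 := by
    have h1 := finrank_span_le_card (R := ℝ) ({p, q} : Set (Fin n → ℝ))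
    have h2 : ({p, q} : Set (Fin n → ℝ)).toFinset.card ≤ 2 := by
      rw [Set.toFinset_insert, Set.toFinset_singleton]
      exact (Finset.card_insert_le _ _).trans (by simp)
    exact h1.trans h2
  have hWtop : W ≠ ⊤ := by
    intro h
    have : Module.finrank ℝ W = n := by
      rw [h, finrank_top]; simp
    omega
  -- a nonzero vector of `W`
  have hx : ∃ x ∈ W, x ≠ 0 := by
    by_cases hp : p = 0
    · refine ⟨q, Submodule.subset_span (by simp), ?_⟩
      intro hq
      apply hv0
      funext j
      apply Complex.ext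
      · exact congrFun hp j
      · exact congrFun hq j
    · exact ⟨p, Submodule.subset_span (by simp), hp⟩
  obtain ⟨x, hxW, hx0⟩ := hx
  refine ⟨x, hx0, ?_⟩
  intro hd
  apply hWtop
  have hsub : {y : Fin n → ℝ | ∃ k : Fin n → ℕ,
        y = ((List.ofFn fun i => A i ^ k i).prod).mulVec x} ⊆ (W : Set (Fin n → ℝ)) := by
    rintro y ⟨k, rfl⟩
    apply hprod _ _ x hxW
    intro M hM
    obtain ⟨i, rfl⟩ := (List.mem_ofFn' _ _).mp hM
    exact hpow i (k i)
  have hd2 : Dense (W : Set (Fin n → ℝ)) := hd.mono hsub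
  have hcl : IsClosed (W : Set (Fin n → ℝ)) := W.closed_of_finiteDimensional
  have huniv : (W : Set (Fin n → ℝ)) = Set.univ := by
    rw [← hcl.closure_eq]; exact hd2.closure_eq
  rw [← SetLike.coe_set_eq, huniv]; rfl

end Pool.Agent.Results.MP_336050_an.NotMinimal
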